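import Pool.Agent.MP_181839_nt.H47.Main

open Pool.Agent.MP_181839_nt.H47 in
/-- Over `F_q[t]`, `q` odd, the strong pseudoprimes to any nonconstant base keep a positive
proportion among the composite pseudoprimes. -/
theorem Pool.Agent.Results.MP_181839_nt.FunctionField.result (F : Type) [Field F] [Fintype F]
    (hq : Odd (Fintype.card F)) (a : Polynomial F) (ha : 0 < a.natDegree) :
    ∃ ε : ℝ, 0 < ε ∧ ∀ᶠ N : ℕ in Filter.atTop, ε ≤ (cntS a N : ℝ) / (cntC a N : ℝ) :=
  main hq ha
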